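import Pool.Agent.W603.CY.Ultra
import Pool.Agent.W603.GY.Maps
import Pool.Agent.W603.PV.Hgt

/-!
Unit equations over an ultraproduct of function fields.
-/

set_option autoImplicit false

open FF Filter Pool.Agent.W603.LV Pool.Agent.W603.PV Pool.Agent.W602.GT Pool.Agent.W603.GY

namespace Pool.Agent.W603.CY

variable {k : Type} [Field k] {L : ℕ → Type} [∀ i, Field (L i)] [∀ i, Algebra k (L i)]
  [IsAlgClosed k] [CharZero k] [∀ i, IsFF k (L i)]

/-- **Blocks** over an ultraproduct. -/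
theorem ublocks {J : Type} [Fintype J] (S : ∀ i, Finset (Place k (L i))) {χ : ℕ → ℤ}
    {hχ : ∀ i, 0 ≤ χ i} {B0 : ℕ}
    (hS : ∀ᶠ i in (hyperfilter ℕ : Filter ℕ), max (canDeg k (L i) + (S i).card) 0 ≤ B0 * χ i)
    {N s : ℕ} (hs : Fintype.card J ≤ s) (hN0 : 0 < N) (hN : (s - 1) ^ 2 ≤ N)
    (g : J → ∀ i, L i) (hg0 : ∀ j, um (g j) ≠ 0) (hrel : ∑ j, um (g j) = 0)
    (hdvd : ∀ᶠ i in (hyperfilter ℕ : Filter ℕ), ∀ P ∉ S i, ∀ a b,
      (N : ℤ) ∣ P.ord (g a i) - P.ord (g b i)) (j0 : J) (A : Finset J)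
    (hA : ∀ j, j ∈ A ↔ um (g j0) / um (g j) ∈ (small χ hχ : IntermediateField k (UL L))) :
    ∑ j ∈ A, um (g j) = 0 := by
  classical
  have h0 : ∀ᶠ i in (hyperfilter ℕ : Filter ℕ), ∀ j, g j i ≠ 0 :=
    eventually_all.2 fun j => um_ne_iff.1 (hg0 j)
  have h1 : ∀ᶠ i in (hyperfilter ℕ : Filter ℕ), ∑ j, g j i = 0 :=
    um_zero_iff.1 (by rw [um_sum]; exact hrel)
  have h2 : ∀ i, ∃ R : J → J → Prop, ((∀ j, g j i ≠ 0) → (∑ j, g j i = 0) →
      (∀ P ∉ S i, ∀ a b, (N : ℤ) ∣ P.ord (g a i) - P.ord (g b i)) →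
      Equivalence R ∧
      (∀ a b, R a b → hgt k (g a i / g b i) ≤
        s * (N * tri s * max (canDeg k (L i) + (S i).card) 0)) ∧
      ∀ (j0 : J) (A : Finset J), (∀ j, j ∈ A ↔ R j0 j) → ∑ j ∈ A, g j i = 0) := by
    intro i
    by_cases h : (∀ j, g j i ≠ 0) ∧ (∑ j, g j i = 0) ∧
      (∀ P ∉ S i, ∀ a b, (N : ℤ) ∣ P.ord (g a i) - P.ord (g b i))
    · obtain ⟨h3, h4, h5⟩ := h
      obtain ⟨R, hR⟩ := blocks (S i) hs hN0 hN (fun j => g j i) h3 h4 h5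
      exact ⟨R, fun _ _ _ => hR⟩
    · exact ⟨fun _ _ => True, fun a b c => absurd ⟨a, b, c⟩ h⟩
  choose R hR using h2
  obtain ⟨R0, hR0⟩ := Ultrafilter.eq_pure_of_finite ((hyperfilter ℕ).map R)
  have h3 : ∀ᶠ i in (hyperfilter ℕ : Filter ℕ), R i = R0 := by
    have h4 : ({R0} : Set (J → J → Prop)) ∈ (hyperfilter ℕ).map R := by
      rw [hR0]
      exact Ultrafilter.mem_pure.2 rfl
    exact h4
  have hall := (((h0.and h1).and hdvd).and h3).and hS
  have h4 : Equivalence R0 := by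
    obtain ⟨i, (⟨⟨⟨h5, h6⟩, h7⟩, h8⟩ : ((_ ∧ _) ∧ _) ∧ _), -⟩ := hall.exists
    rw [← h8]
    exact (hR i h5 h6 h7).1
  have h5 : ∀ a b, R0 a b →
      um (g a) / um (g b) ∈ (small χ hχ : IntermediateField k (UL L)) := by
    intro a b hab
    rw [← um_div, mem_small]
    refine ⟨s * (N * (tri s).toNat * B0), ?_⟩
    filter_upwards [hall] with i hi
    obtain ⟨⟨⟨⟨h5, h6⟩, h7⟩, h8⟩, h9⟩ := hi
    refine ((hR i h5 h6 h7).2.1 a b (by rw [h8]; exact hab)).trans ?_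
    have h10 : (0 : ℤ) ≤ s * (N * tri s) :=
      mul_nonneg (by positivity) (mul_nonneg (by positivity) (tri_nonneg s))
    have h11 := mul_le_mul_of_nonneg_left h9 h10
    refine le_trans (le_of_eq ?_) (h11.trans (le_of_eq ?_))
    · ring
    · push_cast
      rw [Int.toNat_of_nonneg (tri_nonneg s)]
      ring
  have h6 : ∀ (j0 : J) (A : Finset J), (∀ j, j ∈ A ↔ R0 j0 j) → ∑ j ∈ A, um (g j) = 0 := by
    intro j0 A hA
    rw [← um_sum, um_zero_iff]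
    filter_upwards [hall] with i hi
    obtain ⟨⟨⟨⟨h5, h6⟩, h7⟩, h8⟩, h9⟩ := hi
    exact (hR i h5 h6 h7).2.2 j0 A fun j => by rw [h8]; exact hA j
  have h7 := weighted_sum R0 h4 (fun j => um (g j)) (fun j => if j ∈ A then (1 : UL L) else 0) (by
    intro a b hab
    have h8 := h5 a b hab
    have h9 : a ∈ A ↔ b ∈ A := by
      rw [hA, hA]
      constructor
      · intro h
        exact mdiv_trans (hg0 a) h h8
      · intro h
        exact mdiv_trans (hg0 b) h (mdiv_symm h8)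
    simp only [h9]) h6
  simp only [ite_mul, one_mul, zero_mul] at h7
  rw [← h7, Finset.sum_ite_mem, Finset.univ_inter]

end Pool.Agent.W603.CY
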