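import Pool.Agent.W603.CY.Blocks
import Pool.Agent.W603.GY.Labels

/-!
Linear spaces through a point over an ultraproduct of function fields.
-/

set_option autoImplicit false

open FF Filter MvPolynomial Pool.Agent.W603.LV Pool.Agent.W603.PV Pool.Agent.W602.GT
  Pool.Agent.W603.GY Pool.Agent.W603.GX Pool.Agent.W603.GW Pool.Agent.W603.GR

namespace Pool.Agent.W603.CY

variable {k : Type} [Field k] {L : ℕ → Type} [∀ i, Field (L i)] [∀ i, Algebra k (L i)]

theorem um_lin {n : ℕ} (l : Fin (n + 1) → k) (f : Fin (n + 1) → ∀ i, L i) :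
    um (fun i => lin l (fun t => f t i)) = lin l (fun t => um (f t)) := by
  unfold lin
  rw [um_sum]
  refine Finset.sum_congr rfl fun t _ => ?_
  rw [um_mul, um_alg]

theorem um_val {n : ℕ} (H : MvPolynomial (Fin (n + 1)) k) (f : Fin (n + 1) → ∀ i, L i) :
    um (fun i => val (fun t => f t i) H) = val (fun t => um (f t)) H :=
  um_aeval f H

variable [IsAlgClosed k] [CharZero k] [∀ i, IsFF k (L i)]

/-- **Blocks** over an ultraproduct. -/
theorem ublocks0 {J : Type} [Fintype J] (S : ∀ i, Finset (Place k (L i))) {χ : ℕ → ℤ}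
    {hχ : ∀ i, 0 ≤ χ i} {B0 : ℕ}
    (hS : ∀ᶠ i in (hyperfilter ℕ : Filter ℕ), max (canDeg k (L i) + (S i).card) 0 ≤ B0 * χ i)
    {N s : ℕ} (hs : Fintype.card J ≤ s) (hN0 : 0 < N) (hN : (s - 1) ^ 2 ≤ N)
    (g : J → ∀ i, L i) (hrel : ∑ j, um (g j) = 0)
    (hdvd : ∀ᶠ i in (hyperfilter ℕ : Filter ℕ), ∀ P ∉ S i, ∀ a b, g a i ≠ 0 → g b i ≠ 0 →
      (N : ℤ) ∣ P.ord (g a i) - P.ord (g b i)) (j0 : J) (hj0 : um (g j0) ≠ 0) (A : Finset J)
    (hA : ∀ j, j ∈ A ↔ um (g j) ≠ 0 ∧
      um (g j0) / um (g j) ∈ (small χ hχ : IntermediateField k (UL L))) :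
    ∑ j ∈ A, um (g j) = 0 := by
  classical
  have h1 : ∑ j : {j // um (g j) ≠ 0}, um (g j.1) = 0 := by
    rw [← Finset.sum_subtype (Finset.univ.filter fun j => um (g j) ≠ 0) (by simp)
      (fun j => um (g j)), Finset.sum_filter_ne_zero]
    exact hrel
  have h2 : ∀ᶠ i in (hyperfilter ℕ : Filter ℕ), ∀ j : {j // um (g j) ≠ 0}, g j.1 i ≠ 0 :=
    eventually_all.2 fun j => um_ne_iff.1 j.2
  have h3 := ublocks (J := {j // um (g j) ≠ 0}) (χ := χ) (hχ := hχ) S hS (s := s)
    ((Fintype.card_subtype_le _).trans hs) hN0 hN (fun j => g j.1) (fun j => j.2) h1 (by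
      filter_upwards [h2, hdvd] with i h3 h4 P hP a b
      exact h4 P hP a.1 b.1 (h3 a) (h3 b)) ⟨j0, hj0⟩ (A.subtype fun j => um (g j) ≠ 0) (by
      rintro ⟨j, hj⟩
      rw [Finset.mem_subtype, hA]
      exact ⟨fun h => h.2, fun h => ⟨hj, h⟩⟩)
  rw [← h3, Finset.sum_subtype_of_mem (fun j => um (g j)) fun x hx => ((hA x).1 hx).1]

variable {n : ℕ} {ι κ : Type}

/-- **Linear spaces.** -/
theorem good_u (S : ∀ i, Finset (Place k (L i))) {χ : ℕ → ℤ} {hχ : ∀ i, 0 ≤ χ i} {B0 : ℕ}
    (hS : ∀ᶠ i in (hyperfilter ℕ : Filter ℕ), max (canDeg k (L i) + (S i).card) 0 ≤ B0 * χ i)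
    {F : ι → MvPolynomial (Fin (n + 1)) k} {Q : κ → MvPolynomial (Fin (n + 1)) k}
    {r d : ι → ℕ} (l : ∀ i, Fin (r i) → Fin (n + 1) → k) (hd : ∀ i, 0 < d i)
    (hrd : ∀ i, (r i - 1) ^ 2 ≤ d i) (hF : ∀ i, F i = ∑ a, (∑ t, C (l i a t) * X t) ^ d i)
    {r' d' : κ → ℕ} (l' : ∀ j, Fin (r' j) → Fin (n + 1) → k) (hd' : ∀ j, 0 < d' j)
    (hrd' : ∀ j, r' j ^ 2 ≤ d' j) (hQ : ∀ j, Q j = ∑ a, (∑ t, C (l' j a t) * X t) ^ d' j)
    (f : Fin (n + 1) → ∀ i, L i) (hFf : ∀ e, val (fun t => um (f t)) (F e) = 0)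
    (hQf : ∀ j, val (fun t => um (f t)) (Q j) ≠ 0)
    (hQS : ∀ j i, ∀ P ∉ S i, (d' j : ℤ) ∣ P.ord (val (fun t => f t i) (Q j))) :
    ∃ lq : κ → Fin (n + 1) → k,
      Good F Q (fun t => um (f t)) (PrC (small χ hχ) (fun t => um (f t))) lq ∧
      ∀ j, lin (lq j) (fun t => um (f t)) ^ (Q j).totalDegree / val (fun t => um (f t)) (Q j) ∈
        (small χ hχ : IntermediateField k (UL L)) := by
  classical
  obtain ⟨y, hy⟩ : ∃ y : Fin (n + 1) → UL L, y = fun t => um (f t) := ⟨_, rfl⟩
  rw [← hy] at hFf hQf ⊢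
  obtain ⟨E, hE⟩ : ∃ E : IntermediateField k (UL L), E = small χ hχ := ⟨_, rfl⟩
  have hW : ∀ (z : UL L) (d : ℕ), 0 < d → z ^ d ∈ E → z ∈ E := by
    intro z d hd0 h
    rw [hE] at h ⊢
    exact small_root z d hd0 h
  have hQne : ∀ j, Q j ≠ 0 := by
    intro j h0
    apply hQf j
    rw [h0]
    unfold Pool.Agent.W602.GT.val
    rw [map_zero]
  have hdeg : ∀ j, (Q j).totalDegree = d' j := by
    intro j
    have h1 := hom_pow (d := d' j) (l' j)
    rw [← hQ j] at h1
    exact h1.totalDegree (hQne j)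
  have hvF : ∀ e, val y (F e) = ∑ a, lin (l e a) y ^ d e := fun e => by
    conv_lhs => rw [hF e]
    exact val_powM _ _
  have hvQ : ∀ j, val y (Q j) = ∑ a, lin (l' j a) y ^ d' j := fun j => by
    conv_lhs => rw [hQ j]
    exact val_powM _ _
  have hul : ∀ (m : Fin (n + 1) → k) (D : ℕ), um (fun i => lin m (fun t => f t i) ^ D) =
      lin m y ^ D := by
    intro m D
    rw [um_pow, um_lin, hy]
  have huQ : ∀ j, um (fun i => -val (fun t => f t i) (Q j)) = -val y (Q j) := by
    intro j
    rw [um_neg, um_val, hy]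
  -- ratios
  have hratio : ∀ (m m' : Fin (n + 1) → k) (D : ℕ), 0 < D →
      (lin m y ^ D / lin m' y ^ D ∈ E ↔ lin m y / lin m' y ∈ E) := by
    intro m m' D hD
    constructor
    · exact fun h => mpow_div hW hD h
    · intro h
      rw [← div_pow]
      exact pow_mem h _
  -- the labels
  let s : (Fin (n + 1) → k) → Set (UL L) := fun m => {z | z ≠ 0 ∧ lin m y / z ∈ E}
  have hs : ∀ m m', lin m y ≠ 0 → lin m' y ≠ 0 → (s m = s m' ↔ lin m y / lin m' y ∈ E) := by
    intro m m' hm hm'
    constructor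
    · intro h
      have h1 : lin m' y ∈ s m' := ⟨hm', mdiv_self hm'⟩
      rw [← h] at h1
      exact h1.2
    · intro h
      ext z
      constructor
      · rintro ⟨h1, h2⟩
        exact ⟨h1, mdiv_trans hm (mdiv_symm h) h2⟩
      · rintro ⟨h1, h2⟩
        exact ⟨h1, mdiv_trans hm' h h2⟩
  -- the boundary
  have hQb : ∀ j (x0 : Option (Fin (r' j))) (A : Finset (Option (Fin (r' j)))),
      (∀ a, x0 = some a → lin (l' j a) y ≠ 0) →
      (∀ x, x ∈ A ↔ (x.elim (-val y (Q j)) fun a => lin (l' j a) y ^ d' j) ≠ 0 ∧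
        (x0.elim (-val y (Q j)) fun a => lin (l' j a) y ^ d' j) /
          (x.elim (-val y (Q j)) fun a => lin (l' j a) y ^ d' j) ∈ E) →
      ∑ x ∈ A, (x.elim (-val y (Q j)) fun a => lin (l' j a) y ^ d' j) = 0 := by
    intro j x0 A hx0 hA
    let g : Option (Fin (r' j)) → ∀ i, L i := fun x => x.elim
      (fun i => -val (fun t => f t i) (Q j)) fun a => fun i => lin (l' j a) (fun t => f t i) ^ d' j
    have hg : ∀ x, um (g x) = (x.elim (-val y (Q j)) fun a => lin (l' j a) y ^ d' j) := by
      rintro (_ | a)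
      · exact huQ j
      · exact hul _ _
    have hord : ∀ i, ∀ P ∉ S i, ∀ x, (d' j : ℤ) ∣ P.ord (g x i) := by
      intro i P hP x
      rcases x with _ | a
      · change (d' j : ℤ) ∣ P.ord (-val (fun t => f t i) (Q j))
        rw [P.ord_neg]
        exact hQS j i P hP
      · change (d' j : ℤ) ∣ P.ord (lin (l' j a) (fun t => f t i) ^ d' j)
        rw [P.ord_pow]
        exact ⟨_, rfl⟩
    have h1 := ublocks0 (χ := χ) (hχ := hχ) S hS (J := Option (Fin (r' j))) (s := r' j + 1)
      (N := d' j) (by rw [Fintype.card_option, Fintype.card_fin]) (hd' j)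
      (by rw [Nat.add_sub_cancel]; exact hrd' j) g (by
        rw [Fintype.sum_option, hg none]
        simp only [hg, Option.elim_none, Option.elim_some]
        rw [← hvQ j]
        ring) (Eventually.of_forall fun i P hP a b _ _ =>
          dvd_sub (hord i P hP a) (hord i P hP b)) x0 (by
        rw [hg]
        rcases x0 with _ | a
        · exact neg_ne_zero.2 (hQf j)
        · exact pow_ne_zero _ (hx0 a rfl)) A (fun x => by rw [hA, hg, hg, hE])
    rw [← h1]
    exact Finset.sum_congr rfl fun x _ => (hg x).symm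
  have hbq : ∀ j, ∃ b : Fin (r' j), lin (l' j b) y ≠ 0 ∧
      lin (l' j b) y ^ d' j / val y (Q j) ∈ E := by
    intro j
    by_contra hcon
    push Not at hcon
    have h1 := hQb j none {none} (fun a h => by cases h) (by
      rintro (_ | a)
      · simp only [Finset.mem_singleton, Option.elim_none, true_iff]
        exact ⟨neg_ne_zero.2 (hQf j), mdiv_self (neg_ne_zero.2 (hQf j))⟩
      · simp only [Finset.mem_singleton, Option.elim_none, Option.elim_some, reduceCtorEq,
          false_iff, not_and]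
        intro h2 h3
        have h4 : lin (l' j a) y ≠ 0 := fun h0 => h2 (by rw [h0, zero_pow (hd' j).ne'])
        exact hcon a h4 (mdiv_neg (mdiv_symm h3)))
    rw [Finset.sum_singleton, Option.elim_none, neg_eq_zero] at h1
    exact hQf j h1
  choose bq hbq hbqE using hbq
  obtain ⟨lq, hG, hlq⟩ := good_of (y := y) l hd hF l' hd' hQ hQf s (fun j => s (l' j (bq j)))
    (by
      intro e b B hB
      by_cases hne : B.Nonempty
      · obtain ⟨a0, ha0⟩ := hne
        obtain ⟨h1, h2⟩ := (hB a0).1 ha0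
        have h3 := ublocks0 (χ := χ) (hχ := hχ) S hS (J := Fin (r e)) (s := r e) (N := d e)
          (by rw [Fintype.card_fin]) (hd e) (hrd e)
          (fun a => fun i => lin (l e a) (fun t => f t i) ^ d e) (by
            simp only [hul]
            rw [← hvF]
            exact hFf e) (Eventually.of_forall fun i P hP a b _ _ => by
              rw [P.ord_pow, P.ord_pow]
              exact dvd_sub ⟨_, rfl⟩ ⟨_, rfl⟩) a0 (by
            rw [hul]
            exact pow_ne_zero _ h1) B (by
            intro a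
            rw [hul, hul, hB, ← hE]
            constructor
            · rintro ⟨h4, h5⟩
              refine ⟨pow_ne_zero _ h4, ?_⟩
              rw [hratio _ _ _ (hd e), ← hs _ _ h1 h4, h5, h2]
            · rintro ⟨h4, h5⟩
              have h6 : lin (l e a) y ≠ 0 := fun h0 => h4 (by rw [h0, zero_pow (hd e).ne'])
              refine ⟨h6, ?_⟩
              rw [hratio _ _ _ (hd e), ← hs _ _ h1 h6] at h5
              rw [← h5, h2])
        simp only [hul] at h3
        exact h3
      · rw [Finset.not_nonempty_iff_eq_empty] at hne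
        rw [hne, Finset.sum_empty])
    (by
      intro j b B hb hB
      by_cases hne : B.Nonempty
      · obtain ⟨a0, ha0⟩ := hne
        obtain ⟨h1, h2⟩ := (hB a0).1 ha0
        have h3 := hQb j (some a0) (B.map Function.Embedding.some)
          (fun a h => by
            rw [Option.some.injEq] at h
            rw [← h]
            exact h1) (by
          rintro (_ | a)
          · simp only [Finset.mem_map, Function.Embedding.some_apply, reduceCtorEq, and_false,
              exists_false, Option.elim_none, Option.elim_some, false_iff, not_and]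
            intro _ h4
            apply hb
            rw [← h2, hs _ _ h1 (hbq j), ← hratio _ _ _ (hd' j)]
            exact mdiv_trans (hQf j) (mdiv_neg h4) (mdiv_symm (hbqE j))
          · simp only [Finset.mem_map, Function.Embedding.some_apply, Option.some.injEq,
              exists_eq_right, Option.elim_some]
            rw [hB]
            constructor
            · rintro ⟨h4, h5⟩
              refine ⟨pow_ne_zero _ h4, ?_⟩
              rw [hratio _ _ _ (hd' j), ← hs _ _ h1 h4, h5, h2]
            · rintro ⟨h4, h5⟩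
              have h6 : lin (l' j a) y ≠ 0 := fun h0 => h4 (by rw [h0, zero_pow (hd' j).ne'])
              refine ⟨h6, ?_⟩
              rw [hratio _ _ _ (hd' j), ← hs _ _ h1 h6] at h5
              rw [← h5, h2])
        rw [Finset.sum_map] at h3
        exact h3
      · rw [Finset.not_nonempty_iff_eq_empty] at hne
        rw [hne, Finset.sum_empty])
    (by
      intro j B hB
      have h3 := hQb j none (insert none (B.map Function.Embedding.some))
        (fun a h => by cases h) (by
        rintro (_ | a)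
        · simp only [Finset.mem_insert, true_or, Option.elim_none, true_iff]
          exact ⟨neg_ne_zero.2 (hQf j), mdiv_self (neg_ne_zero.2 (hQf j))⟩
        · simp only [Finset.mem_insert, Finset.mem_map, Function.Embedding.some_apply,
            Option.some.injEq, exists_eq_right, Option.elim_some, Option.elim_none, reduceCtorEq,
            false_or]
          rw [hB]
          constructor
          · rintro ⟨h4, h5⟩
            refine ⟨pow_ne_zero _ h4, ?_⟩
            have h6 : lin (l' j (bq j)) y ^ d' j / lin (l' j a) y ^ d' j ∈ E := by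
              rw [hratio _ _ _ (hd' j), ← hs _ _ (hbq j) h4, h5]
            have h7 := mdiv_trans (pow_ne_zero (d' j) (hbq j)) (mdiv_symm (hbqE j)) h6
            rw [neg_div]
            exact neg_mem h7
          · rintro ⟨h4, h5⟩
            have h6 : lin (l' j a) y ≠ 0 := fun h0 => h4 (by rw [h0, zero_pow (hd' j).ne'])
            refine ⟨h6, ?_⟩
            rw [hs _ _ h6 (hbq j), ← hratio _ _ _ (hd' j)]
            rw [neg_div, neg_mem_iff] at h5
            exact mdiv_trans (hQf j) (mdiv_symm h5) (mdiv_symm (hbqE j)))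
      rw [Finset.sum_insert (by simp), Finset.sum_map] at h3
      simp only [Option.elim_none, Function.Embedding.some_apply, Option.elim_some] at h3
      linear_combination h3)
    (PrC E y) (fun p hp => ⟨hp.1, hp.2.1⟩)
    (fun m m' hm hm' h => ⟨hm, hm', (hs m m' hm hm').1 h⟩)
  refine ⟨lq, by rw [hE] at hG; exact hG, fun j => ?_⟩
  obtain ⟨h1, -⟩ := hlq j
  rw [hdeg, ← hE]
  have h2 : lin (lq j) y / lin (l' j (bq j)) y ∈ E := (hs _ _ (hG.lq_ne j) (hbq j)).1 h1
  rw [← hratio _ _ _ (hd' j)] at h2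
  exact mdiv_trans (pow_ne_zero _ (hbq j)) h2 (hbqE j)

end Pool.Agent.W603.CY
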