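import Pool.Agent.W603.CY.Good
import Pool.Agent.W603.GY.EigLine

/-!
Linear projections and punctured lines.
-/

set_option autoImplicit false

open FF Filter Pool.Agent.W603.LV Pool.Agent.W603.PV Pool.Agent.W602.GT
  Pool.Agent.W603.GY Pool.Agent.W603.GX Pool.Agent.W603.GW Pool.Agent.W603.GR

namespace Pool.Agent.W603.CY

section map

variable {k : Type} [Field k] {n : ℕ} {ι κ : Type}

/-- **Punctured lines** from linear maps. -/
theorem punct_of_map {K : Type} [Field K] [Algebra k K] {E : IntermediateField k K}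
    {F : ι → MvPolynomial (Fin (n + 1)) k} {Q : κ → MvPolynomial (Fin (n + 1)) k}
    {y : Fin (n + 1) → K} {lq : κ → Fin (n + 1) → k} (hG : Good F Q y (PrC E y) lq)
    {ls : Fin (n + 1) → k} (hls : lin ls y ≠ 0) (φ : K →ₗ[E] K) (h1 : φ 1 = 0)
    {l : Fin (n + 1)} (hl : φ (y l / lin ls y) ≠ 0) (T : Set κ)
    (hT : ∀ j ∈ T, φ (lin (lq j) y / lin ls y) = lin (lq j) y / lin ls y)
    (hT' : ∀ j, j ∉ T → φ (lin (lq j) y / lin ls y) = 0) : PunctX F Q y := by
  classical
  have hφE : ∀ (c x : K), c ∈ E → φ (c * x) = c * φ x := by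
    intro c x hc
    exact φ.map_smul (⟨c, hc⟩ : E) x
  obtain ⟨e, he⟩ : ∃ e : Fin (n + 1) → K, e = fun t => lin ls y * φ (y t / lin ls y) := ⟨_, rfl⟩
  have hlin : ∀ m : Fin (n + 1) → k, lin m e = lin ls y * φ (lin m y / lin ls y) := by
    intro m
    have h2 : lin m y / lin ls y = ∑ t, algebraMap k K (m t) * (y t / lin ls y) := by
      rw [← lin_div]
      rfl
    rw [h2, map_sum, Finset.mul_sum]
    unfold Pool.Agent.W602.GT.lin
    refine Finset.sum_congr rfl fun t _ => ?_
    rw [hφE _ _ (E.algebraMap_mem _), he]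
    unfold Pool.Agent.W602.GT.lin
    ring
  have heC : LinC (PrC E y) y e := by
    refine ⟨fun m hm => by rw [hlin, hm, zero_div, map_zero, mul_zero], fun p hp => ?_⟩
    obtain ⟨h2, h3, h4⟩ := hp
    have h5 : lin p.1 y / lin ls y = (lin p.1 y / lin p.2 y) * (lin p.2 y / lin ls y) := by
      field_simp
    rw [hlin, hlin, h5, hφE _ _ h4]
    ring
  have hself := linC_self (k := k) (y := y) (Pr := PrC E y) fun p hp => ⟨hp.1, hp.2.1⟩
  have hQv : ∀ (c c' : K) j, val (fun l => c * y l + c' * e l) (Q j) =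
      val y (Q j) / lin (lq j) y ^ (Q j).totalDegree *
        (c * lin (lq j) y + c' * lin (lq j) e) ^ (Q j).totalDegree := by
    intro c c' j
    have h1 := hG.lq_val K _ (hself.comb heC c c').inV j
    rw [lin_add_smul] at h1
    exact h1
  refine ⟨e, T, ?_, fun c c' i => hG.van K _ (hself.comb heC c c').inV i, fun c c' j hj => ?_,
    fun c c' j hj => ?_⟩
  · by_contra hcon
    push Not at hcon
    obtain ⟨i1, hi1⟩ : ∃ i1, y i1 ≠ 0 := by
      by_contra h0
      push Not at h0
      apply hls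
      unfold Pool.Agent.W602.GT.lin
      exact Finset.sum_eq_zero fun t _ => by rw [h0, mul_zero]
    have h2 : e = fun t => (e i1 / y i1) * y t := by
      funext t
      have h3 := hcon t i1
      field_simp
      linear_combination -h3
    have h3 : lin ls e = 0 := by
      rw [hlin, div_self hls, h1, mul_zero]
    rw [h2, lin_smul] at h3
    have h4 := (mul_eq_zero.1 h3).resolve_right hls
    have h5 : e l = 0 := by
      rw [h2]
      simp only
      rw [h4, zero_mul]
    rw [he] at h5
    rcases mul_eq_zero.1 h5 with h6 | h6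
    · exact hls h6
    · exact hl h6
  · rw [hQv, hlin, hT j hj, mul_div_cancel₀ _ hls, ← add_mul, mul_pow]
    have := hG.lq_ne j
    field_simp
  · rw [hQv, hlin, hT' j hj, mul_zero, mul_zero, add_zero, mul_pow]
    have := hG.lq_ne j
    field_simp

end map

section supp

variable {k : Type} [Field k] [IsAlgClosed k] [CharZero k]

/-- the number of zeros and poles -/
theorem card_supp {K : Type} [Field K] [Algebra k K] [IsFF k K] {I : Type} [Fintype I]
    (c : I → K) : ∃ T : Finset (Place k K), (∀ P, P ∉ T → ∀ j, P.ord (c j) = 0) ∧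
      (T.card : ℤ) ≤ ∑ j, 2 * hgt k (c j) := by
  classical
  obtain ⟨T0, hT0⟩ := exists_supp (k := k) (Finset.univ : Finset I) c
  let T1 := T0.filter fun P => ∃ j ∈ (Finset.univ : Finset I), P.ord (c j) < 0
  let T2 := T0.filter fun P => ∃ j ∈ (Finset.univ : Finset I), P.ord (c j)⁻¹ < 0
  refine ⟨T1 ∪ T2, fun P hP j => ?_, ?_⟩
  · by_contra h0
    rw [Finset.mem_union, not_or] at hP
    have h1 := hT0 j (Finset.mem_univ j) P h0
    rcases lt_or_gt_of_ne h0 with h | h
    · exact hP.1 (Finset.mem_filter.2 ⟨h1, j, Finset.mem_univ j, h⟩)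
    · refine hP.2 (Finset.mem_filter.2 ⟨h1, j, Finset.mem_univ j, ?_⟩)
      rw [P.ord_inv]
      omega
  · have h1 := card_poles (k := k) (Finset.univ : Finset I) c T1
      fun P hP => (Finset.mem_filter.1 hP).2
    have h2 := card_poles (k := k) (Finset.univ : Finset I) (fun j => (c j)⁻¹) T2
      fun P hP => (Finset.mem_filter.1 hP).2
    simp only [hgt_inv] at h2
    have h3 : ((T1 ∪ T2).card : ℤ) ≤ T1.card + T2.card := by
      exact_mod_cast Finset.card_union_le _ _
    rw [← Finset.mul_sum]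
    linarith

end supp

section ultra

variable {k : Type} [Field k] {L : ℕ → Type} [∀ i, Field (L i)] [∀ i, Algebra k (L i)]
  [IsAlgClosed k] [CharZero k] [∀ i, IsFF k (L i)]

/-- more places -/
theorem more_places (S : ∀ i, Finset (Place k (L i))) {χ : ℕ → ℤ} {hχ : ∀ i, 0 ≤ χ i} {B0 : ℕ}
    (hS : ∀ᶠ i in (hyperfilter ℕ : Filter ℕ), max (canDeg k (L i) + (S i).card) 0 ≤ B0 * χ i)
    {I : Type} [Fintype I] (a : I → ∀ i, L i)
    (ha : ∀ j, um (a j) ∈ (small χ hχ : IntermediateField k (UL L))) :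
    ∃ (S' : ∀ i, Finset (Place k (L i))) (B1 : ℕ), (∀ i, ∀ P ∉ S' i, P ∉ S i ∧
      ∀ j, P.ord (a j i) = 0) ∧
      ∀ᶠ i in (hyperfilter ℕ : Filter ℕ), max (canDeg k (L i) + (S' i).card) 0 ≤ B1 * χ i := by
  classical
  choose T hT hTc using fun i => card_supp (k := k) (K := L i) (fun j => a j i)
  choose B hB using fun j => mem_small.1 (ha j)
  refine ⟨fun i => S i ∪ T i, B0 + ∑ j, 2 * B j, fun i P hP => ?_, ?_⟩
  · rw [Finset.mem_union, not_or] at hP
    exact ⟨hP.1, hT i P hP.2⟩
  · filter_upwards [hS, eventually_all.2 hB] with i h1 h2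
    have h3 : ((S i ∪ T i).card : ℤ) ≤ (S i).card + (T i).card := by
      exact_mod_cast Finset.card_union_le _ _
    have h4 : ∑ j, 2 * hgt k (a j i) ≤ ∑ j, 2 * (B j * χ i) :=
      Finset.sum_le_sum fun j _ => mul_le_mul_of_nonneg_left (h2 j) (by norm_num)
    have h5 : ((B0 + ∑ j, 2 * B j : ℕ) : ℤ) * χ i = B0 * χ i + ∑ j, 2 * (B j * χ i) := by
      push_cast
      rw [add_mul, Finset.sum_mul]
      congr 1
      exact Finset.sum_congr rfl fun j _ => by ring
    have h6 := hTc i
    have h7 : (0 : ℤ) ≤ ∑ j, 2 * (B j * χ i) := Finset.sum_nonneg fun j _ =>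
      mul_nonneg (by norm_num) (mul_nonneg (by positivity) (hχ i))
    have h8 := le_max_left (canDeg k (L i) + (S i).card) 0
    have h9 := le_max_right (canDeg k (L i) + (S i).card) 0
    rw [h5]
    apply max_le <;> linarith

/-- **Independence** of the quasi-units. -/
theorem uindep (S : ∀ i, Finset (Place k (L i))) {χ : ℕ → ℤ} {hχ : ∀ i, 0 ≤ χ i} {B0 : ℕ}
    (hS : ∀ᶠ i in (hyperfilter ℕ : Filter ℕ), max (canDeg k (L i) + (S i).card) 0 ≤ B0 * χ i)
    {I : Type} [Finite I] (z : I → ∀ i, L i) (z0 : ∀ i, L i) (hz : ∀ j, um (z j) ≠ 0)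
    (hz0 : um z0 ≠ 0)
    (hu : ∀ᶠ i in (hyperfilter ℕ : Filter ℕ), ∀ P ∉ S i, P.ord (z0 i) = 0 ∧
      ∀ j, P.ord (z j i) = 0)
    (hzz : ∀ j, um z0 / um (z j) ∉ (small χ hχ : IntermediateField k (UL L))) :
    um z0 ∉ Submodule.span (small χ hχ : IntermediateField k (UL L))
      (Set.range fun j => um (z j)) := by
  classical
  have := Fintype.ofFinite I
  intro hmem
  rw [Submodule.mem_span_range_iff_exists_fun] at hmem
  obtain ⟨c, hc⟩ := hmem
  choose a ha using fun j => um_surj (c j : UL L)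
  obtain ⟨S', B1, hS', hB1⟩ := more_places (χ := χ) (hχ := hχ) S hS a
    (fun j => by rw [ha]; exact (c j).2)
  let g : Option I → ∀ i, L i := fun x => x.elim (fun i => -z0 i) fun j => fun i => a j i * z j i
  have hg0 : um (g none) = -um z0 := um_neg z0
  have hg1 : ∀ j, um (g (some j)) = (c j : UL L) * um (z j) := by
    intro j
    rw [← ha]
    exact um_mul (a j) (z j)
  have h1 := ublocks0 (χ := χ) (hχ := hχ) S' hB1 (J := Option I) (s := Fintype.card I + 1)
    (N := Fintype.card I ^ 2 + 1) (by rw [Fintype.card_option]) (Nat.succ_pos _)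
    (by rw [Nat.add_sub_cancel]; exact Nat.le_succ _) g (by
      rw [Fintype.sum_option, hg0]
      simp only [hg1]
      rw [← hc]
      simp only [IntermediateField.smul_def, smul_eq_mul]
      ring) (by
      filter_upwards [hu] with i h2 P hP x y hx hy
      obtain ⟨h3, h4⟩ := hS' i P hP
      obtain ⟨h5, h6⟩ := h2 P h3
      have key : ∀ x, g x i ≠ 0 → P.ord (g x i) = 0 := by
        rintro (_ | j) hx
        · change P.ord (-z0 i) = 0
          rw [P.ord_neg, h5]
        · change P.ord (a j i * z j i) = 0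
          have hx' : a j i * z j i ≠ 0 := hx
          rw [P.ord_mul (left_ne_zero_of_mul hx') (right_ne_zero_of_mul hx'), h4, h6, add_zero]
      rw [key x hx, key y hy, sub_zero]
      exact dvd_zero _) none (by rw [hg0]; exact neg_ne_zero.2 hz0) {none} (by
      rintro (_ | j)
      · simp only [Finset.mem_singleton, true_iff]
        rw [hg0]
        exact ⟨neg_ne_zero.2 hz0, mdiv_self (neg_ne_zero.2 hz0)⟩
      · simp only [Finset.mem_singleton, reduceCtorEq, false_iff, not_and]
        rw [hg0, hg1]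
        intro h2 h3
        apply hzz j
        have h4 : (c j : UL L) ≠ 0 := left_ne_zero_of_mul h2
        have h5 : um z0 / um (z j) = -((c j : UL L) * (-um z0 / ((c j : UL L) * um (z j)))) := by
          have := hz j
          field_simp
        rw [h5]
        exact neg_mem (mul_mem (c j).2 h3))
  rw [Finset.sum_singleton, hg0, neg_eq_zero] at h1
  exact hz0 h1

end ultra

end Pool.Agent.W603.CY
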