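import Pool.Agent.W603.LV.Blk2
import Pool.Agent.W603.LV.Root
import Pool.Agent.W603.PV.Ext

/-!
Ultraproducts of function fields, and the field of the elements of small height.
-/

set_option autoImplicit false

open FF Filter Pool.Agent.W603.LV Pool.Agent.W603.PV

namespace Pool.Agent.W603.CY

section field

variable (L : ℕ → Type) [∀ i, Field (L i)]

/-- the sequences which vanish almost everywhere -/
def ui : Ideal (∀ i, L i) where
  carrier := {x | ∀ᶠ i in (hyperfilter ℕ : Filter ℕ), x i = 0}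
  add_mem' := by
    intro a b ha hb
    have ha' : ∀ᶠ i in (hyperfilter ℕ : Filter ℕ), a i = 0 := ha
    have hb' : ∀ᶠ i in (hyperfilter ℕ : Filter ℕ), b i = 0 := hb
    change ∀ᶠ i in (hyperfilter ℕ : Filter ℕ), (a + b) i = 0
    filter_upwards [ha', hb'] with i h1 h2
    rw [Pi.add_apply, h1, h2, add_zero]
  zero_mem' := Eventually.of_forall fun _ => rfl
  smul_mem' := by
    intro c x hx
    have hx' : ∀ᶠ i in (hyperfilter ℕ : Filter ℕ), x i = 0 := hx
    change ∀ᶠ i in (hyperfilter ℕ : Filter ℕ), (c • x) i = 0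
    filter_upwards [hx'] with i h1
    rw [Pi.smul_apply', h1, smul_zero]

theorem mem_ui {x : ∀ i, L i} : x ∈ ui L ↔ ∀ᶠ i in (hyperfilter ℕ : Filter ℕ), x i = 0 := Iff.rfl

instance ui_max : (ui L).IsMaximal := by
  rw [Ideal.isMaximal_iff]
  refine ⟨fun h => ?_, fun J x hJ hx hxJ => ?_⟩
  · obtain ⟨i, hi⟩ := ((mem_ui L).1 h).exists
    exact one_ne_zero hi
  · have h1 : ∀ᶠ i in (hyperfilter ℕ : Filter ℕ), ¬ x i = 0 :=
      Ultrafilter.eventually_not.2 hx
    have h2 : 1 - (fun i => (x i)⁻¹) * x ∈ ui L := by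
      rw [mem_ui]
      filter_upwards [h1] with i hi
      rw [Pi.sub_apply, Pi.mul_apply, Pi.one_apply, inv_mul_cancel₀ hi, sub_self]
    have h3 := J.add_mem (hJ h2) (J.mul_mem_left (fun i => (x i)⁻¹) hxJ)
    rwa [sub_add_cancel] at h3

/-- the ultraproduct -/
abbrev UL : Type := (∀ i, L i) ⧸ ui L

noncomputable instance : Field (UL L) := Ideal.Quotient.field (ui L)

variable {L}

/-- the class of a sequence -/
def um (x : ∀ i, L i) : UL L := Ideal.Quotient.mk (ui L) x

theorem um_surj (x : UL L) : ∃ a : ∀ i, L i, um a = x := Ideal.Quotient.mk_surjective x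

theorem um_eq {x y : ∀ i, L i} : um x = um y ↔ ∀ᶠ i in (hyperfilter ℕ : Filter ℕ), x i = y i := by
  unfold um
  rw [Ideal.Quotient.mk_eq_mk_iff_sub_mem, mem_ui]
  simp only [Pi.sub_apply, sub_eq_zero]

theorem um_zero_iff {x : ∀ i, L i} : um x = 0 ↔ ∀ᶠ i in (hyperfilter ℕ : Filter ℕ), x i = 0 := by
  unfold um
  rw [Ideal.Quotient.eq_zero_iff_mem, mem_ui]

theorem um_ne_iff {x : ∀ i, L i} : um x ≠ 0 ↔ ∀ᶠ i in (hyperfilter ℕ : Filter ℕ), x i ≠ 0 := by
  rw [Ne, um_zero_iff]
  exact Ultrafilter.eventually_not.symm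

theorem um_add (x y : ∀ i, L i) : um (fun i => x i + y i) = um x + um y :=
  map_add (Ideal.Quotient.mk (ui L)) x y

theorem um_mul (x y : ∀ i, L i) : um (fun i => x i * y i) = um x * um y :=
  map_mul (Ideal.Quotient.mk (ui L)) x y

theorem um_neg (x : ∀ i, L i) : um (fun i => -x i) = -um x :=
  map_neg (Ideal.Quotient.mk (ui L)) x

theorem um_pow (x : ∀ i, L i) (d : ℕ) : um (fun i => x i ^ d) = um x ^ d :=
  map_pow (Ideal.Quotient.mk (ui L)) x d

theorem um_sum {J : Type} (s : Finset J) (x : J → ∀ i, L i) :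
    um (fun i => ∑ j ∈ s, x j i) = ∑ j ∈ s, um (x j) := by
  have h : (fun i => ∑ j ∈ s, x j i) = ∑ j ∈ s, x j := by
    funext i
    rw [Finset.sum_apply]
  unfold um
  rw [h, map_sum]

theorem um_inv (x : ∀ i, L i) : um (fun i => (x i)⁻¹) = (um x)⁻¹ := by
  by_cases h : um x = 0
  · rw [h, inv_zero, um_zero_iff]
    filter_upwards [um_zero_iff.1 h] with i hi
    rw [hi, inv_zero]
  · refine eq_inv_of_mul_eq_one_left ?_
    rw [← um_mul]
    have h2 : um (fun _ : ℕ => (1 : L _)) = 1 := map_one (Ideal.Quotient.mk (ui L))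
    rw [← h2, um_eq]
    filter_upwards [um_ne_iff.1 h] with i hi
    exact inv_mul_cancel₀ hi

theorem um_div (x y : ∀ i, L i) : um (fun i => x i / y i) = um x / um y := by
  simp only [div_eq_mul_inv]
  rw [um_mul, um_inv]

end field

section small

variable {k : Type} [Field k] {L : ℕ → Type} [∀ i, Field (L i)] [∀ i, Algebra k (L i)]

theorem um_alg (c : k) : um (fun i => algebraMap k (L i) c) = algebraMap k (UL L) c := rfl

theorem um_aeval {σ : Type} (f : σ → ∀ i, L i) (H : MvPolynomial σ k) :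
    um (fun i => MvPolynomial.aeval (fun s => f s i) H) =
      MvPolynomial.aeval (fun s => um (f s)) H := by
  induction H using MvPolynomial.induction_on with
  | C a => simp only [MvPolynomial.aeval_C]; exact um_alg a
  | add p q hp hq => simp only [map_add]; rw [um_add, hp, hq]
  | mul_X p s hp => simp only [map_mul, MvPolynomial.aeval_X]; rw [um_mul, hp]

variable [IsAlgClosed k] [CharZero k] [∀ i, IsFF k (L i)]

theorem hgt_add_le {K : Type} [Field K] [Algebra k K] [IsFF k K] (a b : K) :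
    hgt k (a + b) ≤ hgt k a + hgt k b := by
  have h := hgt_mvpoly (k := k) (K := K) (ρ := Fin 2) ![a, b]
    (MvPolynomial.X 0 + MvPolynomial.X 1)
  simp only [map_add, MvPolynomial.aeval_X, Matrix.cons_val_zero, Matrix.cons_val_one,
    Fin.sum_univ_two] at h
  have h1 : ((MvPolynomial.X 0 + MvPolynomial.X 1 : MvPolynomial (Fin 2) k)).totalDegree ≤ 1 := by
    refine (MvPolynomial.totalDegree_add _ _).trans ?_
    rw [MvPolynomial.totalDegree_X, MvPolynomial.totalDegree_X, max_self]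
  have h2 : (((MvPolynomial.X 0 + MvPolynomial.X 1 : MvPolynomial (Fin 2) k)).totalDegree : ℤ) ≤ 1 :=
    by exact_mod_cast h1
  have h3 : 0 ≤ hgt k a + hgt k b := add_nonneg (hgt_nonneg a) (hgt_nonneg b)
  nlinarith

theorem hgt_mul_le {K : Type} [Field K] [Algebra k K] [IsFF k K] (a b : K) :
    hgt k (a * b) ≤ hgt k a + hgt k b := by
  by_cases ha : a = 0
  · rw [ha, zero_mul, hgt_zero]
    exact add_nonneg le_rfl (hgt_nonneg b)
  by_cases hb : b = 0
  · rw [hb, mul_zero, hgt_zero]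
    exact add_nonneg (hgt_nonneg a) le_rfl
  exact hgt_mul ha hb

/-- the field of the elements of small height -/
def small (χ : ℕ → ℤ) (hχ : ∀ i, 0 ≤ χ i) : IntermediateField k (UL L) where
  carrier := {x | ∃ a : ∀ i, L i, um a = x ∧ ∃ B : ℕ,
    ∀ᶠ i in (hyperfilter ℕ : Filter ℕ), hgt k (a i) ≤ B * χ i}
  mul_mem' := by
    rintro _ _ ⟨a, rfl, B, hB⟩ ⟨b, rfl, C, hC⟩
    refine ⟨_, um_mul a b, B + C, ?_⟩
    filter_upwards [hB, hC] with i h1 h2
    refine (hgt_mul_le _ _).trans ((add_le_add h1 h2).trans (le_of_eq ?_))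
    push_cast
    ring
  add_mem' := by
    rintro _ _ ⟨a, rfl, B, hB⟩ ⟨b, rfl, C, hC⟩
    refine ⟨_, um_add a b, B + C, ?_⟩
    filter_upwards [hB, hC] with i h1 h2
    refine (hgt_add_le _ _).trans ((add_le_add h1 h2).trans (le_of_eq ?_))
    push_cast
    ring
  algebraMap_mem' := by
    intro c
    refine ⟨_, um_alg c, 0, Eventually.of_forall fun i => ?_⟩
    rw [hgt_algebraic (isAlgebraic_algebraMap c)]
    simp
  inv_mem' := by
    rintro _ ⟨a, rfl, B, hB⟩
    refine ⟨_, um_inv a, B, ?_⟩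
    filter_upwards [hB] with i h1
    rw [hgt_inv]
    exact h1

theorem mem_small {χ : ℕ → ℤ} {hχ : ∀ i, 0 ≤ χ i} {a : ∀ i, L i} :
    um a ∈ (small χ hχ : IntermediateField k (UL L)) ↔ ∃ B : ℕ,
      ∀ᶠ i in (hyperfilter ℕ : Filter ℕ), hgt k (a i) ≤ B * χ i := by
  constructor
  · rintro ⟨b, hb, B, hB⟩
    refine ⟨B, ?_⟩
    filter_upwards [um_eq.1 hb, hB] with i h1 h2
    rw [← h1]
    exact h2
  · rintro ⟨B, hB⟩
    exact ⟨a, rfl, B, hB⟩

theorem small_root {χ : ℕ → ℤ} {hχ : ∀ i, 0 ≤ χ i} (z : UL L) (d : ℕ) (hd : 0 < d)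
    (h : z ^ d ∈ (small χ hχ : IntermediateField k (UL L))) :
    z ∈ (small χ hχ : IntermediateField k (UL L)) := by
  obtain ⟨a, rfl⟩ := um_surj z
  rw [← um_pow, mem_small] at h
  rw [mem_small]
  obtain ⟨B, hB⟩ := h
  refine ⟨B, ?_⟩
  filter_upwards [hB] with i h1
  by_cases ha : a i = 0
  · rw [ha, hgt_zero]
    exact mul_nonneg (by positivity) (hχ i)
  · rw [hgt_pow ha] at h1
    have h2 : (1 : ℤ) ≤ d := by exact_mod_cast hd
    nlinarith [hgt_nonneg (k := k) (a i)]

end small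

end Pool.Agent.W603.CY
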